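import Pool.Agent.W2helper61.PF.Stm

/-! PIECE REF of project PF: a theory which proves a false reflection sentence has no model. -/

set_option autoImplicit false

namespace Pool.Agent.W2helper99.PF

open Pool.Agent.NPC Pool.Agent.H622R2 Pool.Agent.H620R2.Gauge Pool.Agent.W2helper61.RF
  Pool.Agent.W2helper61.PF

theorem REF_ok : P_REF := by
  intro O S F μ m π hF hF4 hμ hμ3 hπ hn hC
  apply hn
  rw [sat_rfn]
  intro u z x e hu hz hx he h
  obtain ⟨M, s, hM⟩ := hC
  have B := bas_of s hM
  have hO : ∀ n, s.orc (jn s n) ↔ O (str n) = true := fun n => orc_of hM n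
  have h1 := hπ.sound s hM (fun i => jn s ((fun _ => 0 : ℕ → ℕ) i))
  have hc : ∀ (a : ℕ) (v : ℕ → ℕ), (cons (jn s a) fun i => jn s (v i)) =
      fun i => jn s (cons a v i) := by
    intro a v
    funext i
    rcases i with _ | i <;> rfl
  have h2 := h1 (jn s u) (jn s z) (jn s x) (jn s e)
  rw [hc, hc, hc, hc] at h2
  have le : ∀ (a : ℕ) (w : ℕ → M), a.size ≤ m → s.le (s.len (jn s a)) ((num m).val s w) := by
    intro a w ha
    rw [B.num, ← B.len]
    exact B.le_iff.2 ha
  exact (B.abs hO hμ _).1 (h2 (le u _ hu) (le z _ hz) (le x _ hx) (le e _ he)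
    ((B.abs hO hF _).2 h))

end Pool.Agent.W2helper99.PF
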